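import Pool.Agent.E8helper94.RootOne

/-!
# From the deformation to the congruence (helper file for MP_3c5a12_nt)
-/

namespace E8H94.WP

open Finset Polynomial

/-- `ℤ[X] → ℚ(X)` -/
noncomputable def toRat : ℤ[X] →+* RatFunc ℚ :=
  (algebraMap ℚ[X] (RatFunc ℚ)).comp (Polynomial.mapRingHom (Int.castRingHom ℚ))

theorem toRat_apply (P : ℤ[X]) :
    toRat P = algebraMap ℚ[X] (RatFunc ℚ) (P.map (Int.castRingHom ℚ)) := rfl

theorem toRat_injective : Function.Injective toRat := by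
  intro a b hab
  rw [toRat_apply, toRat_apply] at hab
  have h1 := RatFunc.algebraMap_injective ℚ hab
  exact Polynomial.map_injective _ Int.cast_injective h1

theorem toRat_X : toRat X = RatFunc.X := by
  rw [toRat_apply]; simp

theorem ratX_ne_zero : (RatFunc.X : RatFunc ℚ) ≠ 0 := RatFunc.X_ne_zero

theorem ratX_zpow (e : ℤ) (he : e ≠ 0) : (RatFunc.X : RatFunc ℚ) ^ e ≠ 1 := by
  have key : ∀ k : ℕ, k ≠ 0 → (RatFunc.X : RatFunc ℚ) ^ k ≠ 1 := by
    intro k hk h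
    rw [← toRat_X, ← map_pow, ← map_one toRat] at h
    have h1 := toRat_injective h
    have h2 := congrArg Polynomial.natDegree h1
    rw [natDegree_X_pow, natDegree_one] at h2
    exact hk h2
  intro h
  rcases Int.natAbs_eq e with h1 | h1
  · rw [h1, zpow_natCast] at h
    exact key _ (by omega) h
  · rw [h1, zpow_neg, zpow_natCast, inv_eq_one] at h
    exact key _ (by omega) h

theorem cyclotomic_dvd_of_root {n : ℕ} (hn : 0 < n) {ζ : ℂ} (hζ : IsPrimitiveRoot ζ n) {P : ℤ[X]}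
    (hP : aeval ζ P = 0) : cyclotomic n ℤ ∣ P := by
  rw [cyclotomic_eq_minpoly hζ hn]
  exact minpoly.isIntegrallyClosed_dvd (hζ.isIntegral hn) hP

theorem root_of_cyclotomic_dvd {n : ℕ} (hn : 0 < n) {ζ : ℂ} (hζ : IsPrimitiveRoot ζ n) {P : ℤ[X]}
    (hP : cyclotomic n ℤ ∣ P) : aeval ζ P = 0 := by
  obtain ⟨Q, rfl⟩ := hP
  rw [map_mul]
  have : aeval ζ (cyclotomic n ℤ) = 0 := by
    rw [cyclotomic_eq_minpoly hζ hn]
    exact minpoly.aeval _ _
  rw [this, zero_mul]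

/-- A polynomial over `ℤ[X]` all of whose specialisations `X ↦ ζ` vanish is divisible by `Φ_n`. -/
theorem C_cyclotomic_dvd {n : ℕ} (hn : 0 < n) {ζ : ℂ} (hζ : IsPrimitiveRoot ζ n) {P : ℤ[X][X]}
    (hP : ∀ lam : ℂ, P.eval₂ (aeval ζ : ℤ[X] →ₐ[ℤ] ℂ).toRingHom lam = 0) :
    C (cyclotomic n ℤ) ∣ P := by
  rw [C_dvd_iff_dvd_coeff]
  intro i
  apply cyclotomic_dvd_of_root hn hζ
  have h1 : P.map (aeval ζ : ℤ[X] →ₐ[ℤ] ℂ).toRingHom = 0 := by
    apply Polynomial.funext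
    intro lam
    rw [eval_map, hP lam, eval_zero]
  have h2 := congrArg (fun Q => Polynomial.coeff Q i) h1
  simpa [coeff_map] using h2

/-- the main divisibility argument -/
theorem cube_dvd {n : ℕ} {P : ℤ[X][X]} (hP : C (cyclotomic n ℤ) ∣ P)
    (h0 : P.eval ((X ^ n - 1) ^ 2) = 0) : (cyclotomic n ℤ) ^ 3 ∣ P.eval 0 := by
  obtain ⟨Q, rfl⟩ := hP
  have hc : cyclotomic n ℤ ∣ X ^ n - 1 := cyclotomic.dvd_X_pow_sub_one n ℤ
  have h1 := Polynomial.sub_dvd_eval_sub (0 : ℤ[X]) ((X ^ n - 1) ^ 2) Q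
  have h2 : (cyclotomic n ℤ) ^ 2 ∣ (0 : ℤ[X]) - (X ^ n - 1) ^ 2 := by
    rw [zero_sub, dvd_neg]
    exact pow_dvd_pow_of_dvd hc 2
  have h3 := mul_dvd_mul (dvd_refl (cyclotomic n ℤ)) (h2.trans h1)
  have h4 : cyclotomic n ℤ * (Q.eval 0 - Q.eval ((X ^ n - 1) ^ 2))
      = (C (cyclotomic n ℤ) * Q).eval 0 := by
    rw [eval_mul, eval_C] at h0 ⊢
    rw [mul_sub, h0, sub_zero]
  rw [h4] at h3
  rwa [pow_succ, mul_comm] 

theorem cube_dvd_NN {d r n m : ℕ}
    (hd : d = 2 * r + 1) (hr : 2 ≤ r) (hm : 1 ≤ m) (hn : n + 1 = d * m) :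
    (cyclotomic n ℤ) ^ 3 ∣ NN d r n (fun i => r + 1 + i) (X : ℤ[X]) 0 := by
  have hnpos : 0 < n := by
    have : 5 * 1 ≤ d * m := Nat.mul_le_mul (by omega) hm
    omega
  set P : ℤ[X][X] := NN d r n (fun i => r + 1 + i) (C X) X with hP
  have hev : ∀ L : ℤ[X], P.eval L = NN d r n (fun i => r + 1 + i) X L := by
    intro L
    have := map_NN (Polynomial.evalRingHom L) d r n (fun i => r + 1 + i) (C (X : ℤ[X])) X
    simpa using this
  obtain ⟨ζ, hζ⟩ : ∃ ζ : ℂ, IsPrimitiveRoot ζ n := ⟨_, Complex.isPrimitiveRoot_exp n hnpos.ne'⟩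
  have h1 : C (cyclotomic n ℤ) ∣ P := by
    apply C_cyclotomic_dvd hnpos hζ
    intro lam
    have := map_NN (Polynomial.eval₂RingHom (aeval ζ : ℤ[X] →ₐ[ℤ] ℂ).toRingHom lam) d r n
      (fun i => r + 1 + i) (C (X : ℤ[X])) X
    rw [Polynomial.coe_eval₂RingHom] at this
    rw [hP, this]
    simp only [eval₂_C, eval₂_X, AlgHom.toRingHom_eq_coe, RingHom.coe_coe, aeval_X]
    exact root1 hζ hd hr hm hn _ _
  have h2 : P.eval ((X ^ n - 1) ^ 2) = 0 := by
    rw [hev]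
    apply toRat_injective
    rw [map_NN, map_zero, map_pow, map_sub, map_pow, map_one, toRat_X]
    exact exact1 ratX_ne_zero ratX_zpow hd hr hm hn
  have h3 := cube_dvd h1 h2
  rwa [hev] at h3

/-! ### the value at `L = 0` -/

section ring
variable {R : Type*} [CommRing R]

theorem fac_zero (d n t : ℕ) (x : R) {k : ℕ} (hk : k ≤ n - 1) :
    fac d n t x 0 k = (x ^ (n * t)) ^ (n - 1) * ((∏ j ∈ range k, (1 - x ^ (1 + d * j))) *
      ∏ j ∈ Ico k (n - 1), (1 - x ^ (d + d * j))) ^ 2 := by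
  unfold fac Gam
  simp only [mul_zero, zero_mul, sub_zero]
  rw [prod_mul_distrib, prod_mul_distrib, prod_const, prod_const, card_range,
    Nat.card_Ico, prod_pow (range k) 2, prod_pow (Ico k (n - 1)) 2]
  have e5 : (x ^ (n * t)) ^ (n - 1) = (x ^ (n * t)) ^ k * (x ^ (n * t)) ^ (n - 1 - k) := by
    rw [← pow_add]
    congr 1
    omega
  rw [e5]
  ring

theorem NN_zero {d r : ℕ} (hd : d = 2 * r + 1) (n : ℕ) (t : ℕ → ℕ) (x : R) :
    NN d r n t x 0 = (∏ i ∈ range r, (x ^ (n * t i)) ^ (n - 1)) *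
      ∑ k ∈ range n, (1 - x ^ (1 + 2 * d * k)) * (x ^ (d * k)) ^ (r - 1) *
        ((∏ j ∈ range k, (1 - x ^ (1 + d * j))) *
          ∏ j ∈ Ico k (n - 1), (1 - x ^ (d + d * j))) ^ d := by
  unfold NN
  rw [Finset.mul_sum]
  apply Finset.sum_congr rfl
  intro k hk
  have hk' : k ≤ n - 1 := by have := Finset.mem_range.mp hk; omega
  rw [Finset.prod_congr rfl (fun i _ => fac_zero d n (t i) x hk'), prod_mul_distrib, prod_const,
    card_range]
  unfold base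
  rw [hd]
  ring

end ring

end E8H94.WP
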