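import Pool.Agent.E8helper94.Nice

/-!
# The deformation (helper file for MP_3c5a12_nt)
-/

namespace E8H94.WP

open Finset Polynomial

section ring
variable {R : Type*} [CommRing R]

/-- `Γ_t(y, L) = x^(nt) (1-y)^2 - y L [t]^2`, `[t] = ∑_{l<t} x^(nl)`. -/
def Gam (n t : ℕ) (x y L : R) : R :=
  x ^ (n * t) * (1 - y) ^ 2 - y * L * (∑ l ∈ range t, x ^ (n * l)) ^ 2

/-- The common prefactor of the `k`-th term. -/
def base (d r n : ℕ) (x : R) (k : ℕ) : R :=
  (1 - x ^ (1 + 2 * d * k)) * (x ^ (d * k)) ^ (r - 1) *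
    ((∏ j ∈ range k, (1 - x ^ (1 + d * j))) * (∏ j ∈ Ico k (n - 1), (1 - x ^ (d + d * j))))

/-- The `i`-th factor of the `k`-th term. -/
def fac (d n t : ℕ) (x L : R) (k : ℕ) : R :=
  (∏ j ∈ range k, Gam n t x (x ^ (1 + d * j)) L) *
    ∏ j ∈ Ico k (n - 1), Gam n t x (x ^ (d + d * j)) L

/-- The deformation polynomial. -/
def NN (d r n : ℕ) (t : ℕ → ℕ) (x L : R) : R :=
  ∑ k ∈ range n, base d r n x k * ∏ i ∈ range r, fac d n (t i) x L k

theorem map_Gam {R' : Type*} [CommRing R'] (f : R →+* R') (n t : ℕ) (x y L : R) :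
    f (Gam n t x y L) = Gam n t (f x) (f y) (f L) := by
  simp [Gam]

theorem map_base {R' : Type*} [CommRing R'] (f : R →+* R') (d r n : ℕ) (x : R) (k : ℕ) :
    f (base d r n x k) = base d r n (f x) k := by
  simp [base]

theorem map_fac {R' : Type*} [CommRing R'] (f : R →+* R') (d n t : ℕ) (x L : R) (k : ℕ) :
    f (fac d n t x L k) = fac d n t (f x) (f L) k := by
  simp [fac, map_Gam]

theorem map_NN {R' : Type*} [CommRing R'] (f : R →+* R') (d r n : ℕ) (t : ℕ → ℕ) (x L : R) :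
    f (NN d r n t x L) = NN d r n t (f x) (f L) := by
  simp [NN, map_base, map_fac]

end ring

variable {K : Type*} [Field K]

theorem Gam_exact (n t : ℕ) (x y : K) :
    Gam n t x y ((x ^ n - 1) ^ 2) = (x ^ (n * t) - y) * (1 - y * x ^ (n * t)) := by
  have h1 : (∑ l ∈ range t, x ^ (n * l)) * (x ^ n - 1) = x ^ (n * t) - 1 := by
    have := geom_sum_mul (x ^ n) t
    simpa [← pow_mul] using this
  unfold Gam
  have h2 : (x ^ n - 1) ^ 2 * (∑ l ∈ range t, x ^ (n * l)) ^ 2 = (x ^ (n * t) - 1) ^ 2 := by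
    rw [← h1]; ring
  linear_combination (-y) * h2

theorem Gam_exact_h {q : K} (hq : q ≠ 0) (n t e : ℕ) :
    Gam n t q (q ^ e) ((q ^ n - 1) ^ 2)
      = q ^ (n * t) * h q ((e : ℤ) - n * t) * h q ((e : ℤ) + n * t) := by
  rw [Gam_exact]
  unfold h
  have e1 : q ^ (n * t) * q ^ ((e : ℤ) - n * t) = q ^ e := by
    rw [← zpow_natCast, ← zpow_natCast, ← zpow_add₀ hq]
    congr 1
    push_cast
    ring
  have e2 : q ^ ((e : ℤ) + n * t) = q ^ e * q ^ (n * t) := by
    rw [← zpow_natCast, ← zpow_natCast, ← zpow_add₀ hq]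
    push_cast
    rfl
  linear_combination (q ^ (n * t) - q ^ e) * e2 + (1 - q ^ ((e : ℤ) + n * t)) * e1

theorem fac_exact {q : K} (hq : q ≠ 0) (d n t k : ℕ) (hk : k ≤ n - 1) :
    fac d n t q ((q ^ n - 1) ^ 2) k
      = (q ^ (n * t)) ^ (n - 1) *
        ((H q d (1 - n * t) k * H q d (1 + n * t) k) *
          (Tl q d (d - n * t) (n - 1) k * Tl q d (d + n * t) (n - 1) k)) := by
  unfold fac
  simp only [Gam_exact_h hq]
  rw [prod_mul_distrib, prod_mul_distrib, prod_mul_distrib, prod_mul_distrib]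
  simp only [prod_const, card_range, Nat.card_Ico]
  have e1 : ∏ j ∈ range k, h q (((1 + d * j : ℕ) : ℤ) - n * t) = H q d (1 - n * t) k := by
    unfold H
    apply prod_congr rfl
    intro j _
    congr 1
    push_cast
    ring
  have e2 : ∏ j ∈ range k, h q (((1 + d * j : ℕ) : ℤ) + n * t) = H q d (1 + n * t) k := by
    unfold H
    apply prod_congr rfl
    intro j _
    congr 1
    push_cast
    ring
  have e3 : ∏ j ∈ Ico k (n - 1), h q (((d + d * j : ℕ) : ℤ) - n * t)
      = Tl q d (d - n * t) (n - 1) k := by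
    unfold Tl
    apply prod_congr rfl
    intro j _
    congr 1
    push_cast
    ring
  have e4 : ∏ j ∈ Ico k (n - 1), h q (((d + d * j : ℕ) : ℤ) + n * t)
      = Tl q d (d + n * t) (n - 1) k := by
    unfold Tl
    apply prod_congr rfl
    intro j _
    congr 1
    push_cast
    ring
  rw [e1, e2, e3, e4]
  have e5 : (q ^ (n * t)) ^ (n - 1) = (q ^ (n * t)) ^ k * (q ^ (n * t)) ^ (n - 1 - k) := by
    rw [← pow_add]
    congr 1
    omega
  rw [e5]
  ring

theorem base_h (q : K) (d r n k : ℕ) :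
    base d r n q k = h q (1 + 2 * d * k) * (q ^ ((d : ℤ) * (k : ℤ))) ^ (r - 1) *
      (H q d 1 k * Tl q d d (n - 1) k) := by
  unfold base H Tl h
  have e1 : ∀ e : ℕ, q ^ e = q ^ (e : ℤ) := fun e => (zpow_natCast q e).symm
  simp only [e1]
  push_cast
  rfl

end E8H94.WP
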