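import Pool.Agent.E8helper94.Defs

/-!
# Exact vanishing for Q1 (helper file for MP_3c5a12_nt)
-/

namespace E8H94.WP

open Finset Polynomial

variable {K : Type*} [Field K]

theorem nice_tail {q : K} (hq : q ≠ 0) (d : ℤ) {M s n : ℕ} (hMn : M + s ≤ n) {a a' b b' : ℤ}
    (ha : a + a' + d * ((s : ℤ) - 1) = 1) (hb : b = a + d * s) (hb' : b' = a' + d * s) :
    Nice q d M s (fun k => (H q d b k * Tl q d a n k) * (H q d b' k * Tl q d a' n k)) := by
  have h1 := (Nice.const q d M (Tl q d a n s * Tl q d a' n s)).mul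
    (nice_pair_one hq d M s ha)
  rw [Nat.zero_add] at h1
  apply h1.congr
  intro k hk
  have hks : k + s ≤ n := by omega
  rw [hb, hb', tail_H q d a hks, tail_H q d a' hks]
  ring

theorem nice_tail_self {q : K} (hq : q ≠ 0) (hq1 : ∀ e : ℤ, e ≠ 0 → q ^ e ≠ 1) (d : ℤ)
    {M s n : ℕ} (hMn : M ≤ n) {a b : ℤ}
    (ha : 2 * a + d * (2 * (s : ℤ) - 1) = 1) (hb : b = a + d * (2 * s))
    (hne : ∀ j : ℕ, a + d * (j : ℤ) ≠ 0) :
    Nice q d M s (fun k => H q d b k * Tl q d a n k) := by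
  have h1 := (Nice.const q d M (H q d a n / H q d a (2 * s))).mul (nice_self hq d M s ha)
  rw [Nat.zero_add] at h1
  apply h1.congr
  intro k hk
  have hA : ∀ l, H q d a l ≠ 0 := fun l => H_ne_zero hq1 (fun j _ => hne j)
  have h2 := H_swap q d a k (2 * s)
  have h3 := H_mul_Tl q d a (hk.trans hMn)
  rw [← h3, hb]
  push_cast at h2
  have h4 := hA (2 * s)
  field_simp
  linear_combination (-Tl q d a n k) * h2

theorem exact1 {q : K} (hq : q ≠ 0) (hq1 : ∀ e : ℤ, e ≠ 0 → q ^ e ≠ 1) {d r n m : ℕ}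
    (hd : d = 2 * r + 1) (hr : 2 ≤ r) (hm : 1 ≤ m) (hn : n + 1 = d * m) :
    NN d r n (fun i => r + 1 + i) q ((q ^ n - 1) ^ 2) = 0 := by
  obtain ⟨e, rfl⟩ : ∃ e, r = e + 1 := ⟨r - 1, by omega⟩
  obtain ⟨s, rfl⟩ : ∃ s, m = s + 1 := ⟨m - 1, by omega⟩
  obtain ⟨M, hM⟩ : ∃ M, M = 2 * (e + 1) * s + 2 * e + 1 := ⟨_, rfl⟩
  have hn' : n = (2 * e + 3) * s + 2 * e + 2 := by
    subst hd
    have : n + 1 = (2 * e + 3) * s + 2 * e + 2 + 1 := by rw [hn]; ring
    omega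
  have hnM : n = M + s + 1 := by rw [hn', hM]; ring
  have hdz : (d : ℤ) = 2 * e + 3 := by rw [hd]; push_cast; ring
  have hnz : (n : ℤ) = (2 * e + 3) * s + 2 * e + 2 := by rw [hn']; push_cast; ring
  have hMz : (M : ℤ) = 2 * (e + 1) * s + 2 * e + 1 := by rw [hM]; push_cast; ring
  have hdpos : (0 : ℤ) < d := by rw [hdz]; positivity
  set R : ℕ → K := fun k =>
    (H q d (1 + n * (e + 2)) k * Tl q d (d - n * (e + 2)) (n - 1) k) *
    ∏ i ∈ range e, ((H q d (1 - n * (e + 2 + i)) k * Tl q d (d - n * (e + 3 + i)) (n - 1) k) *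
      (H q d (1 + n * (e + 3 + i)) k * Tl q d (d + n * (e + 2 + i)) (n - 1) k)) with hRdef
  have hne : ∀ j : ℕ, (d : ℤ) - n * (e + 2) + d * (j : ℤ) ≠ 0 := by
    intro j hj
    have h1 : (d : ℤ) ∣ (e + 2 : ℤ) := by
      refine ⟨(s + 1) * (e + 2) - 1 - j, ?_⟩
      have h2 : (n : ℤ) = d * (s + 1) - 1 := by rw [hdz, hnz]; ring
      rw [h2] at hj
      linear_combination hj
    have h3 := Int.le_of_dvd (by positivity) h1
    rw [hdz] at h3
    omega
  have hR : Nice q d M ((e + 2) * s + e + 1 + e * s) R := by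
    apply Nice.mul
    · apply nice_tail_self hq hq1 (d : ℤ) (by omega) ?_ ?_ hne
      · rw [hnz, hdz]; push_cast; ring
      · rw [hnz, hdz]; push_cast; ring
    · apply Nice.prod
      intro i _
      apply nice_tail hq (d : ℤ) (by omega)
      · rw [hnz, hdz]; ring
      · rw [hnz, hdz]; ring
      · rw [hnz, hdz]; ring
  have hv := vanish hq hq1 hdpos (M := M) (n := n - 1) (e := e) (s := (e + 2) * s + e + 1 + e * s)
    (by rw [hM]; ring) (by omega) (by omega) hR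
  unfold NN
  have hsplit : ∑ k ∈ range n, base d (e + 1) n q k *
      ∏ i ∈ range (e + 1), fac d n (e + 1 + 1 + i) q ((q ^ n - 1) ^ 2) k
      = ∑ k ∈ range (M + 1), base d (e + 1) n q k *
      ∏ i ∈ range (e + 1), fac d n (e + 1 + 1 + i) q ((q ^ n - 1) ^ 2) k := by
    rw [← Finset.sum_range_add_sum_Ico _ (show M + 1 ≤ n by omega)]
    have hz : ∑ k ∈ Ico (M + 1) n, base d (e + 1) n q k *
      ∏ i ∈ range (e + 1), fac d n (e + 1 + 1 + i) q ((q ^ n - 1) ^ 2) k = 0 := by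
      apply Finset.sum_eq_zero
      intro k hk
      have hk' := Finset.mem_Ico.mp hk
      rw [prod_range_succ, fac_exact hq d n (e + 1 + 1 + e) k (by omega)]
      have h0 : H q d (1 - n * ((e + 1 + 1 + e : ℕ) : ℤ)) k = 0 := by
        unfold H
        rw [Finset.prod_eq_zero_iff]
        refine ⟨M, Finset.mem_range.mpr (by omega), ?_⟩
        unfold h
        have : (1 : ℤ) - n * ((e + 1 + 1 + e : ℕ) : ℤ) + d * M = 0 := by
          rw [hnz, hdz, hMz]; push_cast; ring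
        rw [this, zpow_zero, sub_self]
      rw [h0]
      ring
    rw [hz, add_zero]
  rw [hsplit]
  have hterm : ∀ k ∈ range (M + 1), base d (e + 1) n q k *
      ∏ i ∈ range (e + 1), fac d n (e + 1 + 1 + i) q ((q ^ n - 1) ^ 2) k
      = (∏ i ∈ range (e + 1), (q ^ (n * (e + 1 + 1 + i))) ^ (n - 1)) *
      (h q (1 + 2 * d * k) * (q ^ ((d : ℤ) * (k : ℤ))) ^ e
      * (H q d 1 k * Tl q d d (n - 1) k) *
        (H q d (-(d * M)) k * Tl q d (1 + d * (M + 1)) (n - 1) k) * R k) := by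
    intro k hk
    have hk' : k ≤ M := Nat.lt_succ_iff.mp (Finset.mem_range.mp hk)
    rw [base_h]
    have e1 : ∏ i ∈ range (e + 1), fac d n (e + 1 + 1 + i) q ((q ^ n - 1) ^ 2) k
      = (∏ i ∈ range (e + 1), (q ^ (n * (e + 1 + 1 + i))) ^ (n - 1)) *
        (((∏ i ∈ range (e + 1), H q d (1 - n * ((e + 1 + 1 + i : ℕ) : ℤ)) k) *
        (∏ i ∈ range (e + 1), H q d (1 + n * ((e + 1 + 1 + i : ℕ) : ℤ)) k)) *
        ((∏ i ∈ range (e + 1), Tl q d (d - n * ((e + 1 + 1 + i : ℕ) : ℤ)) (n - 1) k) *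
        (∏ i ∈ range (e + 1), Tl q d (d + n * ((e + 1 + 1 + i : ℕ) : ℤ)) (n - 1) k))) := by
      rw [← prod_mul_distrib, ← prod_mul_distrib, ← prod_mul_distrib, ← prod_mul_distrib]
      apply prod_congr rfl
      intro i _
      rw [fac_exact hq d n (e + 1 + 1 + i) k (by omega)]
    rw [e1]
    rw [prod_range_succ (fun i => H q d (1 - n * ((e + 1 + 1 + i : ℕ) : ℤ)) k),
      prod_range_succ' (fun i => H q d (1 + n * ((e + 1 + 1 + i : ℕ) : ℤ)) k),
      prod_range_succ' (fun i => Tl q d (d - n * ((e + 1 + 1 + i : ℕ) : ℤ)) (n - 1) k),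
      prod_range_succ (fun i => Tl q d (d + n * ((e + 1 + 1 + i : ℕ) : ℤ)) (n - 1) k)]
    rw [hRdef]
    simp only [prod_mul_distrib]
    have f1 : (1 : ℤ) - n * ((e + 1 + 1 + e : ℕ) : ℤ) = -(d * M) := by
      rw [hnz, hdz, hMz]; push_cast; ring
    have f2 : (d : ℤ) + n * ((e + 1 + 1 + e : ℕ) : ℤ) = 1 + d * (M + 1) := by
      rw [hnz, hdz, hMz]; push_cast; ring
    have f3 : (1 : ℤ) + n * ((e + 1 + 1 + 0 : ℕ) : ℤ) = 1 + n * (e + 2) := by push_cast; ring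
    have f4 : (d : ℤ) - n * ((e + 1 + 1 + 0 : ℕ) : ℤ) = d - n * (e + 2) := by push_cast; ring
    have f5 : ∀ i : ℕ, (1 : ℤ) - n * ((e + 1 + 1 + i : ℕ) : ℤ) = 1 - n * (e + 2 + i) := by
      intro i; push_cast; ring
    have f6 : ∀ i : ℕ, (1 : ℤ) + n * ((e + 1 + 1 + (i + 1) : ℕ) : ℤ) = 1 + n * (e + 3 + i) := by
      intro i; push_cast; ring
    have f7 : ∀ i : ℕ, (d : ℤ) - n * ((e + 1 + 1 + (i + 1) : ℕ) : ℤ) = d - n * (e + 3 + i) := by
      intro i; push_cast; ring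
    have f8 : ∀ i : ℕ, (d : ℤ) + n * ((e + 1 + 1 + i : ℕ) : ℤ) = d + n * (e + 2 + i) := by
      intro i; push_cast; ring
    rw [f1, f2, f3, f4]
    simp only [f5, f6, f7, f8, Nat.add_sub_cancel]
    ring
  rw [Finset.sum_congr rfl hterm, ← Finset.mul_sum, hv, mul_zero]

end E8H94.WP
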