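import Pool.Agent.E8helper94.WellPoised

/-!
# Nice factors (helper file for MP_3c5a12_nt)
-/

namespace E8H94.WP

open Finset Polynomial

variable {K : Type*} [Field K]

/-- `R` is `s`-nice: `R k = q^(dks) P(ẑ_k)` with `deg P ≤ s`. -/
def Nice (q : K) (d : ℤ) (M s : ℕ) (R : ℕ → K) : Prop :=
  ∃ P : K[X], P.natDegree ≤ s ∧ ∀ k ≤ M, R k = (q ^ (d * (k : ℤ))) ^ s * P.eval (zh q d k)

theorem Nice.const (q : K) (d : ℤ) (M : ℕ) (c : K) : Nice q d M 0 (fun _ => c) :=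
  ⟨C c, by simp, by intro k _; simp⟩

theorem Nice.mul {q : K} {d : ℤ} {M s s' : ℕ} {R R' : ℕ → K} (h1 : Nice q d M s R)
    (h2 : Nice q d M s' R') : Nice q d M (s + s') (fun k => R k * R' k) := by
  obtain ⟨P, hP, hP'⟩ := h1
  obtain ⟨Q, hQ, hQ'⟩ := h2
  refine ⟨P * Q, natDegree_mul_le.trans (add_le_add hP hQ), ?_⟩
  intro k hk
  show R k * R' k = _
  rw [hP' k hk, hQ' k hk, eval_mul, pow_add]
  ring

theorem Nice.congr {q : K} {d : ℤ} {M s : ℕ} {R R' : ℕ → K} (h1 : Nice q d M s R)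
    (h2 : ∀ k ≤ M, R' k = R k) : Nice q d M s R' := by
  obtain ⟨P, hP, hP'⟩ := h1
  exact ⟨P, hP, fun k hk => by rw [h2 k hk, hP' k hk]⟩

theorem Nice.prod {q : K} {d : ℤ} {M s r : ℕ} {R : ℕ → ℕ → K}
    (h1 : ∀ i < r, Nice q d M s (R i)) :
    Nice q d M (r * s) (fun k => ∏ i ∈ range r, R i k) := by
  induction r with
  | zero => simpa using Nice.const q d M 1
  | succ r ih =>
    have h2 := (ih (fun i hi => h1 i (Nat.lt_succ_of_lt hi))).mul (h1 r (Nat.lt_succ_self r))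
    rw [show (r + 1) * s = r * s + s by ring]
    exact h2.congr (fun k _ => by rw [prod_range_succ])

theorem Nice.basic {q : K} (hq : q ≠ 0) (d : ℤ) (M : ℕ) {w : K} (hw : w ≠ 0) :
    Nice q d M 1 (fun k => (1 - w * q ^ (d * (k : ℤ))) * (1 - q / w * q ^ (d * (k : ℤ)))) := by
  refine ⟨X - C (w + q / w), natDegree_X_sub_C_le _, ?_⟩
  intro k _
  have e1 : q ^ (1 + d * (k : ℤ)) = q * q ^ (d * (k : ℤ)) := by rw [zpow_add₀ hq, zpow_one]
  have e2 : q ^ (d * (k : ℤ)) * q ^ (-(d * (k : ℤ))) = 1 := by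
    rw [← zpow_add₀ hq, add_neg_cancel, zpow_zero]
  simp only [eval_sub, eval_X, eval_C, zh, e1, pow_one]
  have e3 : w * (q / w) = q := mul_div_cancel₀ q hw
  linear_combination (-1 : K) * e2 + q ^ (d * (k : ℤ)) * q ^ (d * (k : ℤ)) * e3

theorem nice_pair {q : K} (hq : q ≠ 0) (d : ℤ) (M s : ℕ) {z : K} (hz : z ≠ 0) {a a' : ℤ}
    (ha : a + a' + d * ((s : ℤ) - 1) = 1) :
    Nice q d M s (fun k => (∏ l ∈ range s, (1 - z * q ^ (a + d * (k : ℤ) + d * (l : ℤ)))) *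
      ∏ l ∈ range s, (1 - z⁻¹ * q ^ (a' + d * (k : ℤ) + d * (l : ℤ)))) := by
  have h1 : Nice q d M (s * 1) (fun k => ∏ l ∈ range s,
      ((1 - (z * q ^ (a + d * (l : ℤ))) * q ^ (d * (k : ℤ))) *
        (1 - q / (z * q ^ (a + d * (l : ℤ))) * q ^ (d * (k : ℤ))))) :=
    Nice.prod (fun i _ => Nice.basic hq d M (mul_ne_zero hz (zpow_ne_zero _ hq)))
  rw [mul_one] at h1
  apply h1.congr
  intro k _
  rw [prod_mul_distrib]
  congr 1
  · apply prod_congr rfl
    intro l _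
    rw [show a + d * (k : ℤ) + d * (l : ℤ) = (a + d * (l : ℤ)) + d * (k : ℤ) by ring,
      zpow_add₀ hq]
    ring
  · rw [← Finset.prod_range_reflect]
    apply prod_congr rfl
    intro l hl
    have hl' := Finset.mem_range.mp hl
    have e1 : ((s - 1 - l : ℕ) : ℤ) = s - 1 - l := by omega
    rw [e1]
    have e2 : a' + d * (k : ℤ) + d * ((s : ℤ) - 1 - l) = 1 + -(a + d * (l : ℤ)) + d * (k : ℤ) := by
      linear_combination ha
    rw [e2, zpow_add₀ hq, zpow_add₀ hq, zpow_one, zpow_neg]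
    have : q ^ (a + d * (l : ℤ)) ≠ 0 := zpow_ne_zero _ hq
    field_simp

theorem nice_pair_one {q : K} (hq : q ≠ 0) (d : ℤ) (M s : ℕ) {a a' : ℤ}
    (ha : a + a' + d * ((s : ℤ) - 1) = 1) :
    Nice q d M s (fun k => H q d (a + d * k) s * H q d (a' + d * k) s) := by
  apply (nice_pair hq d M s (one_ne_zero) ha).congr
  intro k _
  simp [H, h]

theorem nice_self {q : K} (hq : q ≠ 0) (d : ℤ) (M s : ℕ) {a : ℤ}
    (ha : 2 * a + d * (2 * (s : ℤ) - 1) = 1) :
    Nice q d M s (fun k => H q d (a + d * k) (2 * s)) := by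
  apply (nice_pair_one hq d M s (a := a) (a' := a + d * s) (by linear_combination ha)).congr
  intro k _
  rw [two_mul, H_add]
  congr 2
  ring

/-- The general vanishing sum for nice factors. -/
theorem vanish {q : K} (hq : q ≠ 0) (hq1 : ∀ e : ℤ, e ≠ 0 → q ^ e ≠ 1) {d : ℤ} (hd : 0 < d)
    {M n e s : ℕ} (hM : s + e = M) (he : 1 ≤ e) (hMn : M ≤ n) {R : ℕ → K} (hR : Nice q d M s R) :
    ∑ k ∈ range (M + 1), h q (1 + 2 * d * k) * (q ^ (d * (k : ℤ))) ^ e
      * (H q d 1 k * Tl q d d n k) * (H q d (-(d * M)) k * Tl q d (1 + d * (M + 1)) n k) * R k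
      = 0 := by
  obtain ⟨P, hP, hP'⟩ := hR
  have hA : ∀ k : ℕ, H q d d k ≠ 0 := by
    intro k
    apply H_ne_zero hq1
    intro j _
    have : 0 < d + d * (j : ℤ) := by positivity
    exact this.ne'
  have hB : ∀ k : ℕ, H q d (1 + d * (M + 1)) k ≠ 0 := by
    intro k
    apply H_ne_zero hq1
    intro j _
    have : 0 < 1 + d * ((M : ℤ) + 1) + d * (j : ℤ) := by positivity
    exact this.ne'
  have hPd : P.degree < (M : WithBot ℕ) := by
    refine lt_of_le_of_lt degree_le_natDegree ?_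
    have : P.natDegree < M := by omega
    exact_mod_cast this
  have hg := general hq hq1 hd M hPd
  have hterm : ∀ k ∈ range (M + 1), h q (1 + 2 * d * k) * (q ^ (d * (k : ℤ))) ^ e
      * (H q d 1 k * Tl q d d n k) * (H q d (-(d * M)) k * Tl q d (1 + d * (M + 1)) n k) * R k
      = (H q d d n * H q d (1 + d * (M + 1)) n) *
      (h q (1 + 2 * d * k) * (q ^ (d * (M : ℤ))) ^ k * H q d 1 k
      * H q d (-(d * M)) k / (H q d d k * H q d (1 + d * (M + 1)) k) * P.eval (zh q d k)) := by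
    intro k hk
    have hkM : k ≤ M := Nat.lt_succ_iff.mp (Finset.mem_range.mp hk)
    rw [hP' k hkM, ← H_mul_Tl q d d (hkM.trans hMn), ← H_mul_Tl q d (1 + d * (M + 1)) (hkM.trans hMn)]
    have e1 : (q ^ (d * (k : ℤ))) ^ e * (q ^ (d * (k : ℤ))) ^ s = (q ^ (d * (M : ℤ))) ^ k := by
      rw [← pow_add, ← zpow_natCast, ← zpow_natCast, ← zpow_mul, ← zpow_mul]
      congr 1
      rw [← hM]
      push_cast
      ring
    rw [← e1]
    have h1 := hA k
    have h2 := hB k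
    field_simp
  rw [Finset.sum_congr rfl hterm, ← Finset.mul_sum, hg, mul_zero]

/-- Tail identity. -/
theorem tail {R : Type*} [CommRing R] (f : ℕ → R) {k s n : ℕ} (hks : k + s ≤ n) :
    (∏ j ∈ range k, f (s + j)) * (∏ j ∈ Ico k n, f j)
      = (∏ j ∈ Ico s n, f j) * ∏ l ∈ range s, f (k + l) := by
  have e1 : ∏ j ∈ range k, f (s + j) = ∏ j ∈ Ico s (s + k), f j := by
    rw [Finset.prod_Ico_eq_prod_range]
    simp
  have e2 : ∏ l ∈ range s, f (k + l) = ∏ j ∈ Ico k (k + s), f j := by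
    rw [Finset.prod_Ico_eq_prod_range]
    simp
  have e3 : (∏ j ∈ Ico k (k + s), f j) * ∏ j ∈ Ico (k + s) n, f j = ∏ j ∈ Ico k n, f j :=
    Finset.prod_Ico_consecutive f (by omega) hks
  have e4 : (∏ j ∈ Ico s (s + k), f j) * ∏ j ∈ Ico (s + k) n, f j = ∏ j ∈ Ico s n, f j :=
    Finset.prod_Ico_consecutive f (by omega) (by omega)
  rw [e1, e2, ← e3, ← e4, add_comm s k]
  ring

theorem tail_H (q : K) (d a : ℤ) {k s n : ℕ} (hks : k + s ≤ n) :
    H q d (a + d * s) k * Tl q d a n k = Tl q d a n s * H q d (a + d * k) s := by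
  have h1 := tail (fun j => h q (a + d * (j : ℤ))) hks
  have e1 : ∀ (u v : ℕ), h q (a + d * ((u + v : ℕ) : ℤ)) = h q (a + d * (u : ℤ) + d * (v : ℤ)) := by
    intro u v
    congr 1
    push_cast
    ring
  simp only [e1] at h1
  exact h1

end E8H94.WP
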