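import Pool.Agent.E8helper94.ExactOne

/-!
# Vanishing at a primitive root of unity for Q1 (helper file for MP_3c5a12_nt)
-/

namespace E8H94.WP

open Finset Polynomial

variable {K : Type*} [Field K]

/-- the quadratic factor. -/
def G2 (y U : K) : K := (1 - y) ^ 2 - y * U

theorem Gam_root {ζ : K} {n : ℕ} (hζ : ζ ^ n = 1) (t : ℕ) (y L : K) :
    Gam n t ζ y L = G2 y (L * (t : K) ^ 2) := by
  unfold Gam G2
  have h1 : ∀ l, ζ ^ (n * l) = 1 := fun l => by rw [pow_mul, hζ, one_pow]
  simp only [h1, sum_const, card_range, nsmul_eq_mul, mul_one]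
  ring

theorem root1 {ζ : K} {d r n m : ℕ} (hζ : IsPrimitiveRoot ζ n)
    (hd : d = 2 * r + 1) (hr : 2 ≤ r) (hm : 1 ≤ m) (hn : n + 1 = d * m) (t : ℕ → ℕ) (L : K) :
    NN d r n t ζ L = 0 := by
  obtain ⟨e, rfl⟩ : ∃ e, r = e + 1 := ⟨r - 1, by omega⟩
  obtain ⟨s, rfl⟩ : ∃ s, m = s + 1 := ⟨m - 1, by omega⟩
  obtain ⟨M, hM⟩ : ∃ M, M = 2 * (e + 1) * s + 2 * e + 1 := ⟨_, rfl⟩
  have hn' : n = (2 * e + 3) * s + 2 * e + 2 := by
    subst hd
    have : n + 1 = (2 * e + 3) * s + 2 * e + 2 + 1 := by rw [hn]; ring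
    omega
  have hnM : n = M + s + 1 := by rw [hn', hM]; ring
  have hζn : ζ ^ n = 1 := hζ.pow_eq_one
  have hζ0 : ζ ≠ 0 := by
    intro h0
    rw [h0, zero_pow (by omega)] at hζn
    exact zero_ne_one hζn
  have hcop : Nat.Coprime d n := by
    have h1 : Nat.Coprime (d * (s + 1)) n := by rw [← hn]; simp
    exact Nat.Coprime.coprime_mul_right h1
  have hp : IsPrimitiveRoot (ζ ^ d) n := hζ.pow_of_coprime d hcop
  set v : ℕ → K := fun k => ζ ^ (d * k) with hv
  have hvinj : Set.InjOn v (range (M + 1) : Finset ℕ) := by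
    intro a ha b hb hab
    simp only [hv] at hab
    rw [pow_mul, pow_mul] at hab
    have ha' : a < M + 1 := by simpa using ha
    have hb' : b < M + 1 := by simpa using hb
    exact hp.pow_inj (by omega) (by omega) hab
  -- the polynomial
  set w : ℕ → K := fun l => ζ ^ (d + d * l) with hw
  set Q : K → ℕ → K[X] := fun U l => (1 - C (w l) * X) ^ 2 - C (w l) * X * C U with hQ
  have hQd : ∀ U l, (Q U l).natDegree ≤ 2 := by
    intro U l
    simp only [hQ]
    compute_degree
  set P : K[X] := (1 - C ζ * X ^ 2) * X ^ (e - 1) *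
    ∏ i ∈ range (e + 1), ∏ l ∈ range s, Q (L * (t i : K) ^ 2) l with hP
  have hPd : P.degree < (M : WithBot ℕ) := by
    refine lt_of_le_of_lt degree_le_natDegree ?_
    have h1 : ((1 - C ζ * X ^ 2 : K[X])).natDegree ≤ 2 := by compute_degree
    have h2 : (∏ i ∈ range (e + 1), ∏ l ∈ range s, Q (L * (t i : K) ^ 2) l).natDegree
        ≤ (e + 1) * (s * 2) := by
      refine (natDegree_prod_le _ _).trans ?_
      refine (Finset.sum_le_card_nsmul _ _ (s * 2) ?_).trans (by simp)
      intro i _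
      refine (natDegree_prod_le _ _).trans ?_
      refine (Finset.sum_le_card_nsmul _ _ 2 ?_).trans (by simp)
      intro l _
      exact hQd _ _
    have h3 : P.natDegree ≤ 2 + (e - 1) + (e + 1) * (s * 2) := by
      rw [hP]
      refine natDegree_mul_le.trans (add_le_add (natDegree_mul_le.trans (add_le_add h1 ?_)) h2)
      exact natDegree_X_pow_le _
    have h4 : P.natDegree < M := by
      have : 2 + (e - 1) + (e + 1) * (s * 2) < M := by
        have h5 : (e + 1) * (s * 2) = 2 * (e + 1) * s := by ring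
        rw [hM, h5]
        omega
      omega
    exact_mod_cast h4
  have hL := lagrange_zero hvinj hPd
  -- terms beyond `M`
  unfold NN
  have hH0 : ∀ k, M < k → ∏ j ∈ range k, (1 - ζ ^ (1 + d * j)) = 0 := by
    intro k hk
    rw [Finset.prod_eq_zero_iff]
    refine ⟨M, Finset.mem_range.mpr hk, ?_⟩
    have : 1 + d * M = n * (2 * (e + 1)) := by
      rw [hd, hn', hM]; ring
    rw [this, pow_mul, hζn, one_pow, sub_self]
  rw [← Finset.sum_range_add_sum_Ico _ (show M + 1 ≤ n by omega)]
  have hz : ∑ k ∈ Ico (M + 1) n, base d (e + 1) n ζ k *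
      ∏ i ∈ range (e + 1), fac d n (t i) ζ L k = 0 := by
    apply Finset.sum_eq_zero
    intro k hk
    have hk' := Finset.mem_Ico.mp hk
    unfold base
    rw [hH0 k (by omega)]
    ring
  rw [hz, add_zero]
  -- the factors
  have hfac : ∀ (i k : ℕ), k ≤ M → fac d n (t i) ζ L k
      = (∏ j ∈ Ico s (n - 1), G2 (ζ ^ (d + d * j)) (L * (t i : K) ^ 2)) *
        ∏ l ∈ range s, (Q (L * (t i : K) ^ 2) l).eval (v k) := by
    intro i k hk
    unfold fac
    simp only [Gam_root hζn]
    have e1 : ∀ j, ζ ^ (1 + d * j) = ζ ^ (d + d * (s + j)) := by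
      intro j
      have : d + d * (s + j) = n + (1 + d * j) := by
        have : n + (1 + d * j) = n + 1 + d * j := by ring
        rw [this, hn]; ring
      rw [this, pow_add ζ n, hζn, one_mul]
    simp only [e1]
    rw [tail (fun j => G2 (ζ ^ (d + d * j)) (L * (t i : K) ^ 2)) (show k + s ≤ n - 1 by omega)]
    congr 1
    apply prod_congr rfl
    intro l _
    simp only [hQ, hv, hw, G2, eval_sub, eval_pow, eval_mul, eval_one, eval_C, eval_X]
    have : ζ ^ (d + d * (k + l)) = ζ ^ (d + d * l) * ζ ^ (d * k) := by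
      rw [← pow_add]; congr 1; ring
    rw [this]
  have hHd : ∀ k, k ≤ n - 1 → H ζ d d k ≠ 0 := by
    intro k hk
    unfold H
    rw [prod_ne_zero_iff]
    intro j hj
    have hj' := Finset.mem_range.mp hj
    unfold h
    rw [sub_ne_zero]
    have : (d : ℤ) + d * j = ((d * (j + 1) : ℕ) : ℤ) := by push_cast; ring
    rw [this, zpow_natCast, pow_mul]
    intro hc
    have := hp.dvd_of_pow_eq_one _ hc.symm
    have := Nat.le_of_dvd (by omega) this
    omega
  have hW : ∀ k ∈ range (M + 1), ∏ j ∈ (range (M + 1)).erase k, (v k - v j) ≠ 0 := by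
    intro k hk
    rw [prod_ne_zero_iff]
    intro j hj
    rw [sub_ne_zero]
    intro hkj
    exact (Finset.mem_erase.mp hj).1
      (hvinj (by simpa using (Finset.mem_erase.mp hj).2) (by simpa using hk) hkj.symm)
  have hterm : ∀ k ∈ range (M + 1), base d (e + 1) n ζ k *
      ∏ i ∈ range (e + 1), fac d n (t i) ζ L k
      = ((H ζ d d (n - 1) * H ζ d d M) *
        ∏ i ∈ range (e + 1), ∏ j ∈ Ico s (n - 1), G2 (ζ ^ (d + d * j)) (L * (t i : K) ^ 2)) *
        ((P.eval (v k)) / ∏ j ∈ (range (M + 1)).erase k, (v k - v j)) := by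
    intro k hk
    have hkM : k ≤ M := Nat.lt_succ_iff.mp (Finset.mem_range.mp hk)
    rw [Finset.prod_congr rfl (fun i _ => hfac i k hkM), prod_mul_distrib, base_h]
    have hw' := hW k hk
    have hvk : v k ≠ 0 := pow_ne_zero _ hζ0
    -- `H(1,k) = H(-dM,k)`
    have e1 : H ζ d 1 k = H ζ d (-(d * M)) k := by
      unfold H
      apply prod_congr rfl
      intro j _
      unfold h
      congr 1
      have e2 : (1 : ℤ) + d * j = (n : ℤ) * (2 * (e + 1)) + (-(d * M) + d * j) := by
        rw [hd, hn', hM]; push_cast; ring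
      rw [e2, zpow_add₀ hζ0, zpow_mul, zpow_natCast, hζn, one_zpow, one_mul]
    have e3 : (∏ j ∈ (range (M + 1)).erase k, (v k - v j)) * H ζ d (-(d * M)) k * v k
        = H ζ d d k * H ζ d d M := by
      rw [← key hζ0 d hkM]
      have e4 : ∏ j ∈ (range (M + 1)).erase k, (v k - v j)
          = (v k) ^ M * ∏ j ∈ (range (M + 1)).erase k, h ζ (d * (j - k)) := by
        have e5 : (v k) ^ M = ∏ _j ∈ (range (M + 1)).erase k, v k := by
          rw [prod_const, Finset.card_erase_of_mem hk, card_range, Nat.add_sub_cancel]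
        rw [e5, ← prod_mul_distrib]
        apply prod_congr rfl
        intro j _
        simp only [hv, h]
        rw [mul_sub, mul_one]
        congr 1
        rw [← zpow_natCast, ← zpow_natCast, ← zpow_add₀ hζ0]
        congr 1
        push_cast
        ring
      rw [e4]
      have e6 : (v k) ^ M * v k = (ζ ^ ((d : ℤ) * (M + 1))) ^ k := by
        simp only [hv]
        rw [← pow_succ, ← zpow_natCast, ← zpow_natCast, ← zpow_natCast, ← zpow_mul, ← zpow_mul]
        congr 1
        push_cast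
        ring
      rw [← e6]
      ring
    have e7 : P.eval (v k) = (1 - ζ * (v k) ^ 2) * (v k) ^ (e - 1) *
        ∏ i ∈ range (e + 1), ∏ l ∈ range s, (Q (L * (t i : K) ^ 2) l).eval (v k) := by
      rw [hP]
      simp only [eval_mul, eval_sub, eval_one, eval_C, eval_pow, eval_X, eval_prod]
    rw [e7, e1]
    have e8 : h ζ (1 + 2 * d * k) = 1 - ζ * (v k) ^ 2 := by
      unfold h
      rw [zpow_add₀ hζ0, zpow_one]
      congr 2
      simp only [hv]
      rw [← pow_mul, ← zpow_natCast]
      congr 1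
      push_cast
      ring
    have e9 : (ζ ^ ((d : ℤ) * (k : ℤ))) ^ (e + 1 - 1) = (v k) ^ (e - 1) * v k := by
      have : ζ ^ ((d : ℤ) * (k : ℤ)) = v k := by
        simp only [hv]
        rw [← zpow_natCast]
        push_cast
        rfl
      rw [this, ← pow_succ]
      congr 1
      omega
    rw [e8, e9]
    rw [← H_mul_Tl ζ d d (show k ≤ n - 1 by omega)]
    rw [mul_div_assoc', eq_div_iff hw']
    set PQ := ∏ i ∈ range (e + 1), ∏ l ∈ range s, (Q (L * (t i : K) ^ 2) l).eval (v k)
    set PG := ∏ i ∈ range (e + 1), ∏ j ∈ Ico s (n - 1), G2 (ζ ^ (d + d * j)) (L * (t i : K) ^ 2)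
    linear_combination ((1 - ζ * (v k) ^ 2) * (v k) ^ (e - 1) * Tl ζ d d (n - 1) k * PG * PQ) * e3
  rw [Finset.sum_congr rfl hterm, ← Finset.mul_sum, hL, mul_zero]

end E8H94.WP
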