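import Mathlib

/-!
# Well-poised vanishing sums (helper file for MP_3c5a12_nt)
-/

namespace E8H94.WP

open Finset Polynomial

variable {K : Type*} [Field K]

/-- `h q e = 1 - q^e`. -/
def h (q : K) (e : ℤ) : K := 1 - q ^ e

/-- `H q d a k = ∏_{j<k} (1 - q^(a+dj))`. -/
def H (q : K) (d a : ℤ) (k : ℕ) : K := ∏ j ∈ range k, h q (a + d * j)

/-- Lagrange: low degree sums vanish. -/
theorem lagrange_zero {M : ℕ} {v : ℕ → K} (hv : Set.InjOn v (range (M + 1) : Finset ℕ))
    {P : K[X]} (hP : P.degree < (M : WithBot ℕ)) :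
    ∑ k ∈ range (M + 1), (P.eval (v k)) / ∏ j ∈ (range (M + 1)).erase k, (v k - v j) = 0 := by
  have h1 := Lagrange.coeff_eq_sum (s := range (M + 1)) (v := v) hv (P := P)
    (lt_of_lt_of_le hP (by rw [card_range]; exact_mod_cast Nat.le_succ M))
  rw [← h1, card_range]
  exact coeff_eq_zero_of_degree_lt (by simpa using hP)

theorem prod_erase_split {M k : ℕ} (hk : k ≤ M) (f : ℕ → K) :
    ∏ j ∈ (range (M + 1)).erase k, f j
      = (∏ j ∈ range k, f j) * ∏ j ∈ range (M - k), f (k + 1 + j) := by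
  obtain ⟨s, rfl⟩ := Nat.exists_eq_add_of_le hk
  set g : ℕ → K := fun j => if j = k then 1 else f j with hg
  have e1 : ∏ j ∈ (range (k + s + 1)).erase k, f j = ∏ j ∈ (range (k + s + 1)).erase k, g j := by
    apply prod_congr rfl
    intro j hj
    simp [hg, (Finset.mem_erase.mp hj).1]
  rw [e1, Finset.prod_erase (s := range (k + s + 1)) (f := g) (a := k) (by simp [hg]),
    show k + s + 1 = k + 1 + s by ring, prod_range_add, prod_range_succ]
  have e2 : g k = 1 := by simp [hg]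
  rw [e2, mul_one, Nat.add_sub_cancel_left]
  congr 1
  · apply prod_congr rfl
    intro j hj
    have : j ≠ k := (Finset.mem_range.mp hj).ne
    simp [hg, this]
  · apply prod_congr rfl
    intro j hj
    have : k + 1 + j ≠ k := by omega
    simp [hg, this]

theorem h_neg {q : K} (hq : q ≠ 0) (e : ℤ) : h q (-e) = -(q ^ (-e)) * h q e := by
  unfold h
  rw [mul_sub, mul_one, neg_mul, ← zpow_add₀ hq, neg_add_cancel, zpow_zero]
  ring

theorem H_zero (q : K) (d a : ℤ) : H q d a 0 = 1 := by simp [H]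

theorem H_succ (q : K) (d a : ℤ) (k : ℕ) : H q d a (k + 1) = H q d a k * h q (a + d * k) := by
  simp [H, prod_range_succ]

theorem H_add (q : K) (d a : ℤ) (k l : ℕ) : H q d a (k + l) = H q d a k * H q d (a + d * k) l := by
  unfold H
  rw [prod_range_add]
  congr 1
  apply prod_congr rfl
  intro j _
  congr 1
  push_cast
  ring

theorem H_swap (q : K) (d a : ℤ) (k s : ℕ) :
    H q d a k * H q d (a + d * k) s = H q d a s * H q d (a + d * s) k := by
  rw [← H_add, ← H_add, add_comm]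

theorem H_ne_zero {q : K} (hq1 : ∀ e : ℤ, e ≠ 0 → q ^ e ≠ 1) {d a : ℤ} {k : ℕ}
    (ha : ∀ j < k, a + d * (j : ℤ) ≠ 0) : H q d a k ≠ 0 := by
  unfold H
  rw [prod_ne_zero_iff]
  intro j hj
  unfold h
  rw [sub_ne_zero]
  exact (hq1 _ (ha j (Finset.mem_range.mp hj))).symm

/-- the tail of `H` -/
theorem H_tail (q : K) (d : ℤ) {M k : ℕ} (hk : k ≤ M) :
    (∏ j ∈ range k, h q (d * (M - j))) * H q d d (M - k) = H q d d M := by
  induction k with
  | zero => simp
  | succ k ih =>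
    rw [← ih (Nat.le_of_succ_le hk), prod_range_succ, mul_assoc]
    congr 1
    obtain ⟨s, rfl⟩ := Nat.exists_eq_add_of_le hk
    have e1 : k + 1 + s - k = s + 1 := by omega
    have e2 : k + 1 + s - (k + 1) = s := by omega
    rw [e1, e2, H_succ, mul_comm]
    congr 2
    push_cast
    ring

/-- The key product identity. -/
theorem key {q : K} (hq : q ≠ 0) (d : ℤ) {M k : ℕ} (hk : k ≤ M) :
    (∏ j ∈ (range (M + 1)).erase k, h q (d * (j - k))) * H q d (-(d * M)) k
      * (q ^ (d * (M + 1))) ^ k = H q d d k * H q d d M := by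
  rw [prod_erase_split hk (fun j => h q (d * (j - k)))]
  have e1 : ∏ j ∈ range k, h q (d * ((j : ℤ) - k)) = ∏ j ∈ range k, h q (-(d * (j + 1))) := by
    rw [← Finset.prod_range_reflect]
    apply prod_congr rfl
    intro j hj
    have hj' := Finset.mem_range.mp hj
    congr 1
    have : ((k - 1 - j : ℕ) : ℤ) = k - 1 - j := by omega
    rw [this]
    ring
  have e2 : ∏ j ∈ range (M - k), h q (d * (((k + 1 + j : ℕ) : ℤ) - k)) = H q d d (M - k) := by
    unfold H
    apply prod_congr rfl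
    intro j _
    congr 1
    push_cast
    ring
  rw [e1, e2]
  have e3 : (∏ j ∈ range k, h q (-(d * (j + 1)))) * H q d (-(d * M)) k * (q ^ (d * (M + 1))) ^ k
      = H q d d k * ∏ j ∈ range k, h q (d * (M - j)) := by
    unfold H
    rw [← prod_mul_distrib, ← prod_mul_distrib]
    have : (q ^ (d * ((M : ℤ) + 1))) ^ k = ∏ _j ∈ range k, q ^ (d * ((M : ℤ) + 1)) := by simp
    rw [this, ← prod_mul_distrib]
    apply prod_congr rfl
    intro j _
    have a1 : h q (-(d * ((j : ℤ) + 1))) = -(q ^ (-(d * ((j : ℤ) + 1)))) * h q (d * (j + 1)) :=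
      h_neg hq _
    have a2 : h q (-(d * (M : ℤ)) + d * j) = -(q ^ (-(d * ((M : ℤ) - j)))) * h q (d * (M - j)) := by
      rw [← h_neg hq]; congr 1; ring
    rw [a1, a2, show d + d * (j : ℤ) = d * (j + 1) by ring]
    have a3 : q ^ (-(d * ((j : ℤ) + 1))) * q ^ (-(d * ((M : ℤ) - j))) * q ^ (d * ((M : ℤ) + 1)) = 1 := by
      rw [← zpow_add₀ hq, ← zpow_add₀ hq]
      have : -(d * ((j : ℤ) + 1)) + -(d * ((M : ℤ) - j)) + d * ((M : ℤ) + 1) = 0 := by ring
      rw [this, zpow_zero]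
    linear_combination (h q (d * (j + 1)) * h q (d * (M - j))) * a3
  calc _ = ((∏ j ∈ range k, h q (-(d * (j + 1)))) * H q d (-(d * M)) k * (q ^ (d * (M + 1))) ^ k)
        * H q d d (M - k) := by ring
    _ = _ := by rw [e3, mul_assoc, H_tail q d hk]

/-- The second factor. -/
theorem key2 {q : K} (d : ℤ) {M k : ℕ} (hk : k ≤ M) :
    (∏ j ∈ (range (M + 1)).erase k, h q (1 + d * (k + j))) * h q (1 + 2 * d * k)
      * H q d 1 k = H q d 1 (M + 1) * H q d (1 + d * (M + 1)) k := by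
  have e1 : (∏ j ∈ (range (M + 1)).erase k, h q (1 + d * (k + j))) * h q (1 + 2 * d * k)
      = H q d (1 + d * k) (M + 1) := by
    unfold H
    rw [← Finset.prod_erase_mul (range (M + 1)) _ (Finset.mem_range.mpr (Nat.lt_succ_of_le hk))]
    congr 1
    · apply prod_congr rfl
      intro j _
      congr 1
      ring
    · congr 1
      ring
  rw [e1, mul_comm, H_swap]
  push_cast
  ring

/-- nodes `ẑ_k = q^(1+dk) + q^(-dk)` -/
def zh (q : K) (d : ℤ) (k : ℕ) : K := q ^ (1 + d * (k : ℤ)) + q ^ (-(d * (k : ℤ)))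

theorem zh_sub {q : K} (hq : q ≠ 0) (d : ℤ) (k j : ℕ) :
    zh q d k - zh q d j = -(q ^ (-(d * (j : ℤ)))) * (h q (d * (j - k)) * h q (1 + d * (k + j))) := by
  unfold zh h
  have e1 : q ^ (-(d * (j : ℤ))) * q ^ (d * ((j : ℤ) - k)) = q ^ (-(d * (k : ℤ))) := by
    rw [← zpow_add₀ hq]; congr 1; ring
  have e2 : q ^ (-(d * (j : ℤ))) * q ^ (1 + d * ((k : ℤ) + j)) = q ^ (1 + d * (k : ℤ)) := by
    rw [← zpow_add₀ hq]; congr 1; ring
  have e3 : q ^ (-(d * (j : ℤ))) * q ^ (d * ((j : ℤ) - k)) * q ^ (1 + d * ((k : ℤ) + j))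
      = q ^ (1 + d * (j : ℤ)) := by
    rw [← zpow_add₀ hq, ← zpow_add₀ hq]; congr 1; ring
  linear_combination (-1 : K) * e1 - e2 + e3

theorem zh_injOn {q : K} (hq : q ≠ 0) (hq1 : ∀ e : ℤ, e ≠ 0 → q ^ e ≠ 1) {d : ℤ} (hd : 0 < d)
    (M : ℕ) : Set.InjOn (zh q d) (range (M + 1) : Finset ℕ) := by
  intro k _ j _ hkj
  by_contra hne
  have h1 := zh_sub hq d k j
  rw [hkj, sub_self] at h1
  have h2 : -(q ^ (-(d * (j : ℤ)))) ≠ 0 := neg_ne_zero.mpr (zpow_ne_zero _ hq)
  have h3 : h q (d * ((j : ℤ) - k)) ≠ 0 := by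
    unfold h
    rw [sub_ne_zero]
    refine (hq1 _ ?_).symm
    apply mul_ne_zero hd.ne'
    rw [sub_ne_zero]
    exact fun hc => hne (by exact_mod_cast hc.symm)
  have h4 : h q (1 + d * ((k : ℤ) + j)) ≠ 0 := by
    unfold h
    rw [sub_ne_zero]
    refine (hq1 _ ?_).symm
    positivity
  exact (mul_ne_zero h2 (mul_ne_zero h3 h4)) h1.symm

/-- Tail version of `H`. -/
def Tl (q : K) (d a : ℤ) (n k : ℕ) : K := ∏ j ∈ Ico k n, h q (a + d * j)

theorem H_mul_Tl (q : K) (d a : ℤ) {n k : ℕ} (hk : k ≤ n) : H q d a k * Tl q d a n k = H q d a n := by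
  unfold H Tl
  exact Finset.prod_range_mul_prod_Ico _ hk

/-- The general well-poised vanishing sum. -/
theorem general {q : K} (hq : q ≠ 0) (hq1 : ∀ e : ℤ, e ≠ 0 → q ^ e ≠ 1) {d : ℤ} (hd : 0 < d)
    (M : ℕ) {P : K[X]} (hP : P.degree < (M : WithBot ℕ)) :
    ∑ k ∈ range (M + 1), h q (1 + 2 * d * k) * (q ^ (d * (M : ℤ))) ^ k * H q d 1 k
      * H q d (-(d * M)) k / (H q d d k * H q d (1 + d * (M + 1)) k) * P.eval (zh q d k) = 0 := by
  have hA : ∀ k : ℕ, H q d d k ≠ 0 := by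
    intro k
    apply H_ne_zero hq1
    intro j _
    have : 0 < d + d * (j : ℤ) := by positivity
    exact this.ne'
  have hB : ∀ k : ℕ, H q d (1 + d * (M + 1)) k ≠ 0 := by
    intro k
    apply H_ne_zero hq1
    intro j _
    have : 0 < 1 + d * ((M : ℤ) + 1) + d * (j : ℤ) := by positivity
    exact this.ne'
  have hL := lagrange_zero (zh_injOn hq hq1 hd M) hP
  set A : K := ∏ j ∈ range (M + 1), (-(q ^ (-(d * (j : ℤ))))) with hAdef
  have hW : ∀ k ∈ range (M + 1), ∏ j ∈ (range (M + 1)).erase k, (zh q d k - zh q d j) ≠ 0 := by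
    intro k hk
    rw [prod_ne_zero_iff]
    intro j hj
    rw [sub_ne_zero]
    intro hkj
    exact (Finset.mem_erase.mp hj).1
      (zh_injOn hq hq1 hd M (by simpa using (Finset.mem_erase.mp hj).2) (by simpa using hk) hkj.symm)
  have hterm : ∀ k ∈ range (M + 1), h q (1 + 2 * d * k) * (q ^ (d * (M : ℤ))) ^ k * H q d 1 k
      * H q d (-(d * M)) k / (H q d d k * H q d (1 + d * (M + 1)) k) * P.eval (zh q d k)
      = (-A * H q d d M * H q d 1 (M + 1)) *
        ((P.eval (zh q d k)) / ∏ j ∈ (range (M + 1)).erase k, (zh q d k - zh q d j)) := by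
    intro k hk
    have hkM : k ≤ M := Nat.lt_succ_iff.mp (Finset.mem_range.mp hk)
    have hw := hW k hk
    have hpow : q ^ (-(d * (k : ℤ))) ≠ 0 := zpow_ne_zero _ hq
    have e0 : (∏ j ∈ (range (M + 1)).erase k, (-(q ^ (-(d * (j : ℤ)))))) * (-(q ^ (-(d * (k : ℤ))))) = A :=
      Finset.prod_erase_mul _ _ hk
    have e1 : ∏ j ∈ (range (M + 1)).erase k, (zh q d k - zh q d j)
        = (∏ j ∈ (range (M + 1)).erase k, (-(q ^ (-(d * (j : ℤ)))))) *
          ((∏ j ∈ (range (M + 1)).erase k, h q (d * (j - k))) *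
            ∏ j ∈ (range (M + 1)).erase k, h q (1 + d * (k + j))) := by
      rw [← prod_mul_distrib, ← prod_mul_distrib]
      apply prod_congr rfl
      intro j _
      exact zh_sub hq d k j
    have k1 := key hq d hkM
    have k2 := key2 (q := q) d hkM
    have e2 : (q ^ (d * ((M : ℤ) + 1))) ^ k * (q ^ (-(d * (k : ℤ)))) = (q ^ (d * (M : ℤ))) ^ k := by
      rw [← zpow_natCast, ← zpow_natCast, ← zpow_mul, ← zpow_mul, ← zpow_add₀ hq]
      congr 1
      ring
    rw [div_mul_eq_mul_div, mul_div_assoc', div_eq_div_iff (mul_ne_zero (hA k) (hB k)) hw]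
    rw [e1]
    set Z := ∏ j ∈ (range (M + 1)).erase k, (-(q ^ (-(d * (j : ℤ)))))
    set X1 := ∏ j ∈ (range (M + 1)).erase k, h q (d * (j - k))
    set X2 := ∏ j ∈ (range (M + 1)).erase k, h q (1 + d * (k + j))
    rw [← e2, ← e0]
    linear_combination (P.eval (zh q d k) * Z * (q ^ (-(d * (k : ℤ)))) *
      (X2 * h q (1 + 2 * d * k) * H q d 1 k)) * k1
      + (P.eval (zh q d k) * Z * (q ^ (-(d * (k : ℤ)))) * (H q d d k * H q d d M)) * k2
  rw [Finset.sum_congr rfl hterm, ← Finset.mul_sum, hL, mul_zero]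

end E8H94.WP
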